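import Mathlib
import Pool.Agent.P.MP_e83d7b_an.Final

/-!
Positive answer to Q1: for the thin-film equation with mobility exponent `n ≥ 3`, a classical
solution, positive in the wetted strip, with finite dissipation has a fixed contact point.
-/

namespace Pool.Agent.Results.MP_e83d7b_an.NoSlip

open Set MeasureTheory

/-- The strip `D = {(x,t) : s(t) < x < s(t) + δ, 0 < t < T}`. -/
def D (δ T : ℝ) (s : ℝ → ℝ) : Set (ℝ × ℝ) :=
  {p | s p.2 < p.1 ∧ p.1 < s p.2 + δ ∧ 0 < p.2 ∧ p.2 < T}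

/-- The spatial derivative `∂_x^j h` at `(x,t)`. -/
noncomputable def dx (j : ℕ) (h : ℝ → ℝ → ℝ) (x t : ℝ) : ℝ :=
  iteratedDeriv j (fun y => h y t) x

/-- The time derivative `h_t` at `(x,t)`. -/
noncomputable def dt (h : ℝ → ℝ → ℝ) (x t : ℝ) : ℝ := deriv (fun τ => h x τ) t

/-- `(h,s)` is a classical solution, positive in `D`, of `h_t + (h^n h_xxx)_x = 0` in `D` with
`h = 0` on `x = s(t)`. -/
structure IsClassical (n δ T : ℝ) (s : ℝ → ℝ) (h : ℝ → ℝ → ℝ) : Prop where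
  cont_s : ContinuousOn s (Ioo 0 T)
  cont_h : ContinuousOn (fun p : ℝ × ℝ => h p.1 p.2) (closure (D δ T s))
  pos : ∀ p ∈ D δ T s, 0 < h p.1 p.2
  exists_dt : ∀ p ∈ D δ T s, DifferentiableAt ℝ (fun τ => h p.1 τ) p.2
  cont_dt : ContinuousOn (fun p : ℝ × ℝ => dt h p.1 p.2) (D δ T s)
  exists_dx : ∀ j < 4, ∀ p ∈ D δ T s, DifferentiableAt ℝ (fun y => dx j h y p.2) p.1
  cont_dx : ∀ j ≤ 4, ContinuousOn (fun p : ℝ × ℝ => dx j h p.1 p.2) (D δ T s)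
  equation : ∀ p ∈ D δ T s,
    dt h p.1 p.2 + deriv (fun y => h y p.2 ^ n * dx 3 h y p.2) p.1 = 0
  boundary : ∀ t ∈ Ioo 0 T, h (s t) t = 0

/-- Finite dissipation: the integral of `h^n h_xxx^2` over `D` is finite. -/
def FiniteDissipation (n δ T : ℝ) (s : ℝ → ℝ) (h : ℝ → ℝ → ℝ) : Prop :=
  ∫⁻ p in D δ T s, ENNReal.ofReal (h p.1 p.2 ^ n * dx 3 h p.1 p.2 ^ 2) < ⊤

theorem result (n δ T : ℝ) (hn : 3 ≤ n) (hδ : 0 < δ) (_hT : 0 < T) (s : ℝ → ℝ) (h : ℝ → ℝ → ℝ)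
    (hs : IsClassical n δ T s h) (hd : FiniteDissipation n δ T s h) :
    ∃ s₀ : ℝ, ∀ t ∈ Ioo 0 T, s t = s₀ := by
  have e : D δ T s = Pool.Agent.TF.Dom δ T s := by
    ext p
    exact ⟨fun hp => ⟨⟨hp.2.2.1, hp.2.2.2⟩, hp.1, hp.2.1⟩, fun hp => ⟨hp.2.1, hp.2.2, hp.1.1, hp.1.2⟩⟩
  obtain ⟨a1, a2, a3, a4, a5, a6, a7, a8, a9⟩ := hs
  unfold FiniteDissipation at hd
  rw [e] at a2 a3 a4 a5 a6 a7 a8 hd
  have dd : ∀ j < 4, ∀ p ∈ Pool.Agent.TF.Dom δ T s,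
      HasDerivAt (fun y => dx j h y p.2) (dx (j + 1) h p.1 p.2) p.1 := by
    intro j hj p hp
    have := (a6 j hj p hp).hasDerivAt
    unfold dx at this ⊢
    rw [iteratedDeriv_succ]
    exact this
  have d0 : ∀ p ∈ Pool.Agent.TF.Dom δ T s, HasDerivAt (fun y => h y p.2) (dx 1 h p.1 p.2) p.1 := by
    intro p hp
    have := dd 0 (by norm_num) p hp
    simpa only [dx, iteratedDeriv_zero] using this
  have S : Pool.Agent.TF.Sol n δ T s h (dx 1 h) (dx 2 h) (dx 3 h) (dt h) := by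
    refine ⟨hn, hδ, a1, a2, a3, a9, d0, dd 1 (by norm_num), dd 2 (by norm_num),
      a7 1 (by norm_num), a7 2 (by norm_num), a7 3 (by norm_num), a5,
      fun p hp => (a4 p hp).hasDerivAt, fun p hp => ?_, hd⟩
    have h1 : DifferentiableAt ℝ (fun y => h y p.2 ^ n * dx 3 h y p.2) p.1 :=
      ((d0 p hp).differentiableAt.rpow_const (Or.inl (a3 p hp).ne')).mul (a6 3 (by norm_num) p hp)
    have h2 := h1.hasDerivAt
    rwa [eq_neg_of_add_eq_zero_right (a8 p hp)] at h2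
  exact ⟨s (T / 2), fun t ht => S.const ht ⟨by linarith, by linarith⟩⟩

end Pool.Agent.Results.MP_e83d7b_an.NoSlip
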